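import Pool.Agent.Y516.OJ.Stm

/-!
Project OJ: from the direct product statement to the lower bound.
-/

set_option autoImplicit false

namespace Pool.Agent.Y759.OJ

open Finset Pool.Agent.Y516.OJ

theorem wt_nn {α : ℝ} (h0 : 0 ≤ α) (h1 : α ≤ 1) {k : ℕ} (x : Fin k → Bool) : 0 ≤ wt α x := by
  unfold wt
  refine Finset.prod_nonneg fun i _ => ?_
  split_ifs
  · exact h0
  · linarith

theorem Wt_nn {α : ℝ} (h0 : 0 ≤ α) (h1 : α ≤ 1) {u k : ℕ} (X : Fam u k) : 0 ≤ Wt α X := by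
  unfold Wt
  exact Finset.prod_nonneg fun e _ => wt_nn h0 h1 _

theorem ind_nn (P : Prop) : 0 ≤ ind P := by
  unfold ind
  split_ifs
  · exact zero_le_one
  · exact le_rfl

theorem EE_nn {α : ℝ} (h0 : 0 ≤ α) (h1 : α ≤ 1) {u k : ℕ} (h : Fam u k → Fam u k → ℝ)
    (hh : ∀ X Y, 0 ≤ h X Y) : 0 ≤ EE α h := by
  unfold EE
  exact Finset.sum_nonneg fun X _ => Finset.sum_nonneg fun Y _ =>
    mul_nonneg (mul_nonneg (Wt_nn h0 h1 X) (Wt_nn h0 h1 Y)) (hh X Y)

/-- CORE -/
theorem core : DPStm → CoreStm := by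
  intro hDP w b m M k s hw hb hm hM J addr query hdepth hsum
  classical
  by_contra hlt
  push Not at hlt
  have hm1 : 1 ≤ m := by omega
  have hM1 : 1 ≤ M := by
    rw [hM]
    exact Nat.mul_pos (Nat.mul_pos (by norm_num) hb) hm1
  have hα0 : (0 : ℝ) ≤ 1 / (M : ℝ) := by positivity
  have hα1 : 1 / (M : ℝ) ≤ 1 := by
    rw [div_le_one (by exact_mod_cast hM1)]
    exact_mod_cast hM1
  set err : Fin k × Fin k → ℝ := fun d =>
    EE (1 / (M : ℝ)) (fun X Y => ind (Wrong J addr query X Y d)) with herr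
  have herr0 : ∀ d, 0 ≤ err d := fun d => EE_nn hα0 hα1 _ fun X Y => ind_nn _
  have hsplit := Finset.card_filter_add_card_filter_not
    (s := (univ : Finset (Fin k × Fin k))) (fun d => err d ≤ 2 / 10 ^ 6)
  rw [Finset.card_univ, Fintype.card_prod, Fintype.card_fin] at hsplit
  have hbad : 2 * (univ.filter fun d => ¬ err d ≤ 2 / 10 ^ 6).card ≤ k ^ 2 := by
    have h1 : ((univ.filter fun d => ¬ err d ≤ 2 / 10 ^ 6).card : ℝ) * (2 / 10 ^ 6) ≤
        (k : ℝ) ^ 2 / 10 ^ 6 := by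
      calc ((univ.filter fun d => ¬ err d ≤ 2 / 10 ^ 6).card : ℝ) * (2 / 10 ^ 6)
          = ∑ d ∈ univ.filter fun d => ¬ err d ≤ 2 / 10 ^ 6, (2 / 10 ^ 6 : ℝ) := by
            rw [Finset.sum_const, nsmul_eq_mul]
        _ ≤ ∑ d ∈ univ.filter fun d => ¬ err d ≤ 2 / 10 ^ 6, err d := by
            refine Finset.sum_le_sum fun d hd => ?_
            rw [Finset.mem_filter] at hd
            exact (not_le.1 hd.2).le
        _ ≤ ∑ d, err d := Finset.sum_le_univ_sum_of_nonneg herr0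
        _ ≤ _ := hsum
    have h2 : (2 * (univ.filter fun d => ¬ err d ≤ 2 / 10 ^ 6).card : ℝ) ≤ (k : ℝ) ^ 2 := by
      linarith
    exact_mod_cast h2
  have hgood : (univ : Finset (Fin s)).card * m <
      (univ.filter fun d => err d ≤ 2 / 10 ^ 6).card := by
    rw [Finset.card_univ, Fintype.card_fin]
    have h3 : 2 * (s * m) = 2 * m * s := by ring
    have h4 : k ^ 2 = k * k := sq k
    omega
  obtain ⟨c, _, hc⟩ := Finset.exists_lt_card_fiber_of_mul_lt_card_of_maps_to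
    (f := addr) (fun d _ => Finset.mem_univ (addr d)) hgood
  obtain ⟨D, hD1, hD2⟩ := Finset.exists_subset_card_eq hc.le
  refine hDP w b m M k s hw hb hm hM J addr query D c hdepth hD2 (fun d hd => ?_) (fun d hd => ?_)
  · exact (Finset.mem_filter.1 (hD1 hd)).2
  · exact (Finset.mem_filter.1 (Finset.mem_filter.1 (hD1 hd)).1).2

end Pool.Agent.Y759.OJ
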